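import Pool.Agent.Lib.MP_524519_ag.DU5.AB.Iface

/-! Modules MX and CHAIN of board d5b_modules: powers of the maximal ideal; the chain rule for every
derivation of `A⟦u⟧`. -/

set_option autoImplicit false

namespace Pool.Agent.DU5.AB.H61

open MvPowerSeries Pool.Agent.DU5

/-- A series without terms of degree less than `N + 1` is `∑ X_i g_i`, `g_i` without terms of degree
less than `N`. -/
lemma split {k : Type} [Field k] {n : ℕ} (N : ℕ) (h : O k n)
    (hN : ∀ α : Fin n →₀ ℕ, α.degree < N + 1 → coeff α h = 0) :
    ∃ g : Fin n → O k n, h = ∑ i, X i * g i ∧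
      ∀ i, ∀ α : Fin n →₀ ℕ, α.degree < N → coeff α (g i) = 0 := by
  classical
  let g : Fin n → O k n := fun i β =>
    if ∀ j < i, β j = 0 then coeff (β + Finsupp.single i 1) h else 0
  have hg : ∀ i β, coeff β (g i) =
      if ∀ j < i, β j = 0 then coeff (β + Finsupp.single i 1) h else 0 := fun i β => rfl
  refine ⟨g, ?_, ?_⟩
  · ext α
    rw [map_sum]
    have hX : ∀ i, coeff α (X i * g i) = if Finsupp.single i 1 ≤ α then
        coeff (α - Finsupp.single i 1) (g i) else 0 := by
      intro i
      rw [X_def, coeff_monomial_mul, one_mul]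
    simp only [hX]
    by_cases hα : α = 0
    · subst hα
      rw [hN 0 (by simp)]
      symm
      apply Finset.sum_eq_zero
      intro i _
      rw [if_neg]
      intro hle
      have := hle i
      simp at this
    · have hne : α.support.Nonempty := by
        rw [Finset.nonempty_iff_ne_empty]
        intro h0
        exact hα (Finsupp.support_eq_empty.mp h0)
      set i0 := α.support.min' hne with hi0
      have hi0m : i0 ∈ α.support := Finset.min'_mem _ _
      have hi0' : α i0 ≠ 0 := Finsupp.mem_support_iff.mp hi0m
      have hlt : ∀ j < i0, α j = 0 := by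
        intro j hj
        by_contra hne2
        have := Finset.min'_le α.support j (Finsupp.mem_support_iff.mpr hne2)
        exact absurd hj (not_lt.mpr this)
      have hsle : ∀ i, Finsupp.single i 1 ≤ α ↔ α i ≠ 0 := by
        intro i
        rw [Finsupp.single_le_iff]
        omega
      rw [Finset.sum_eq_single i0]
      · rw [if_pos ((hsle i0).mpr hi0'), hg, if_pos, tsub_add_cancel_of_le ((hsle i0).mpr hi0')]
        intro j hj
        rw [Finsupp.tsub_apply, hlt j hj]
        simp
      · intro i _ hi
        by_cases hsi : Finsupp.single i 1 ≤ α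
        · rw [if_pos hsi, hg, if_neg]
          intro hall
          have hle : i0 ≤ i := Finset.min'_le _ _ (Finsupp.mem_support_iff.mpr ((hsle i).mp hsi))
          have hlt2 : i0 < i := lt_of_le_of_ne hle (Ne.symm hi)
          have h3 := hall i0 hlt2
          rw [Finsupp.tsub_apply, Finsupp.single_apply, if_neg hi] at h3
          exact hi0' (by simpa using h3)
        · rw [if_neg hsi]
      · intro h0
        exact absurd (Finset.mem_univ i0) h0
  · intro i α hα
    rw [hg]
    split_ifs
    · apply hN
      rw [map_add, Finsupp.degree_single]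
      omega
    · rfl

/-- MX. -/
theorem mx : MXStatement := by
  intro k _ n N
  induction N with
  | zero =>
    intro h
    simp
  | succ N ih =>
    intro h
    constructor
    · intro hh
      rw [pow_succ'] at hh
      refine Submodule.mul_induction_on hh ?_ ?_
      · intro a ha b hb α hα
        have ha0 : coeff 0 a = 0 := by
          refine Submodule.span_induction (p := fun a _ => coeff 0 a = 0) ?_ ?_ ?_ ?_ ha
          · rintro _ ⟨i, rfl⟩
            exact coeff_zero_X i
          · exact map_zero _
          · intro a b _ _ ha hb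
            rw [map_add, ha, hb, add_zero]
          · intro c a _ ha
            rw [smul_eq_mul, coeff_zero_eq_constantCoeff_apply, map_mul,
              ← coeff_zero_eq_constantCoeff_apply, ← coeff_zero_eq_constantCoeff_apply, ha,
              mul_zero]
        have hb' := (ih b).mp hb
        classical
        rw [coeff_mul]
        apply Finset.sum_eq_zero
        intro q hq
        have h1 : q.1 + q.2 = α := Finset.HasAntidiagonal.mem_antidiagonal.1 hq
        by_cases hq1 : q.1 = 0
        · rw [hq1, ha0, zero_mul]
        · have h2 : q.1.degree ≠ 0 := by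
            rw [Ne, Finsupp.degree_eq_zero_iff]
            exact hq1
          have h3 : q.1.degree + q.2.degree = α.degree := by
            rw [← h1, map_add]
          rw [hb' q.2 (by omega), mul_zero]
      · intro a b ha hb α hα
        rw [map_add, ha α hα, hb α hα, add_zero]
    · intro hh
      obtain ⟨g, hg, hg'⟩ := split N h hh
      rw [hg, pow_succ']
      apply Ideal.sum_mem
      intro i _
      exact Ideal.mul_mem_mul (Ideal.subset_span ⟨i, rfl⟩) ((ih (g i)).mpr (hg' i))

section chain

variable {k A : Type} [Field k] [CommRing A] [Algebra k A] {n : ℕ} (x : Fin n → PowerSeries A)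
  (hx : ∀ i, PowerSeries.constantCoeff (x i) = 0)
  (E : Derivation k (PowerSeries A) (PowerSeries A))

/-- The defect of the chain rule. -/
noncomputable def Df (h : O k n) : PowerSeries A :=
  E (ev x h) - ∑ i, ev x (pderiv k i h) * E (x i)

include hx

lemma ev_X (i : Fin n) : ev x (X i : O k n) = x i := by
  unfold ev
  exact subst_X (hs hx) i

lemma ev_C (c : k) : ev x (C c : O k n) = algebraMap k (PowerSeries A) c := by
  unfold ev
  rw [← coe_substAlgHom (hs hx)]
  have : (C c : O k n) = algebraMap k (O k n) c := by
    rw [MvPowerSeries.algebraMap_apply]; rfl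
  rw [this, AlgHom.commutes]

lemma Df_add (a b : O k n) : Df x E (a + b) = Df x E a + Df x E b := by
  unfold Df
  rw [ev_add hx, map_add]
  simp only [map_add, ev_add hx, add_mul, Finset.sum_add_distrib]
  ring

lemma Df_zero : Df x E (0 : O k n) = 0 := by
  have h := Df_add x hx E (0 : O k n) 0
  rw [add_zero] at h
  exact left_eq_add.mp h

lemma Df_sum {ι : Type} (s : Finset ι) (a : ι → O k n) :
    Df x E (∑ i ∈ s, a i) = ∑ i ∈ s, Df x E (a i) := by
  classical
  induction s using Finset.induction_on with
  | empty => simp [Df_zero x hx E]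
  | insert i s hi ih => rw [Finset.sum_insert hi, Finset.sum_insert hi, Df_add x hx E, ih]

lemma Df_C (c : k) : Df x E (C c : O k n) = 0 := by
  unfold Df
  rw [ev_C x hx, Derivation.map_algebraMap, zero_sub, neg_eq_zero]
  apply Finset.sum_eq_zero
  intro i _
  rw [pderiv_C, ev_zero hx, zero_mul]

lemma Df_X_mul (i : Fin n) (h : O k n) : Df x E (X i * h) = x i * Df x E h := by
  unfold Df
  rw [ev_mul hx, ev_X x hx, Derivation.leibniz, smul_eq_mul, smul_eq_mul]
  have h1 : ∑ j, ev x (pderiv k j (X i * h)) * E (x j) =
      x i * ∑ j, ev x (pderiv k j h) * E (x j) + ev x h * E (x i) := by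
    have h2 : ∀ j, ev x (pderiv k j (X i * h)) * E (x j) =
        x i * (ev x (pderiv k j h) * E (x j)) +
          (if j = i then ev x h * E (x i) else 0) := by
      intro j
      rw [Derivation.leibniz, smul_eq_mul, smul_eq_mul, ev_add hx, ev_mul hx, ev_X x hx,
        ev_mul hx]
      split_ifs with hj
      · subst hj
        rw [pderiv_X_self]
        have : ev x (1 : O k n) = 1 := by
          unfold ev; rw [← coe_substAlgHom (hs hx)]; exact map_one _
        rw [this]; ring
      · rw [pderiv_X_of_ne (Ne.symm hj), ev_zero hx]; ring
    simp only [h2]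
    rw [Finset.sum_add_distrib, ← Finset.mul_sum]
    simp
  rw [h1]; ring

lemma dvd_Df (N : ℕ) : ∀ h : O k n, PowerSeries.X ^ N ∣ Df x E h := by
  induction N with
  | zero => intro h; simp
  | succ N ih =>
    intro h
    obtain ⟨g, hg, -⟩ := split 0 (h - C (constantCoeff h)) (by
      intro α hα
      have : α = 0 := by
        rw [← Finsupp.degree_eq_zero_iff]; omega
      subst this
      rw [map_sub, coeff_zero_eq_constantCoeff_apply, coeff_zero_eq_constantCoeff_apply,
        constantCoeff_C, sub_self])
    have h2 : h = C (constantCoeff h) + ∑ i, X i * g i := by rw [← hg]; ring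
    rw [h2, Df_add x hx E, Df_C x hx E, zero_add, Df_sum x hx E]
    apply Finset.dvd_sum
    intro i _
    rw [Df_X_mul x hx E, pow_succ']
    exact mul_dvd_mul (PowerSeries.X_dvd_iff.mpr (hx i)) (ih (g i))

end chain

/-- CHAIN. -/
theorem chain : CHAINStatement := by
  intro k A _ _ _ n x hx E h
  have h1 : Df x E h = 0 := by
    ext m
    rw [map_zero]
    exact PowerSeries.X_pow_dvd_iff.mp (dvd_Df x hx E (m + 1) h) m (Nat.lt_succ_self m)
  exact sub_eq_zero.mp h1

end Pool.Agent.DU5.AB.H61
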